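import Pool.Agent.H34.VW.Fw

/-!
# [H34 VW COR] THEOREM W: uniformity in the classes, almost all primes, almost all moduli

`GoodMod k K L s A Q`: there is `c > 0` such that for ALL classes `r` prime to `Q`, all `x` in `[-c, c] ^ k` and all `e > 0` the
shape `x` with the classes `r` occurs with positive frequency along `A`.
-/

set_option autoImplicit false

namespace Pool.Agent.H34.VW

open Filter Finset Pool.Agent.H82.LS Pool.Agent.H62.VK Pool.Agent.H34.RC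

theorem Shw.mono_c {k K L s Q : ℕ} {r : Fin (k + 1) → ℕ} {x : Fin k → ℝ} {c c' e h : ℝ} {p : ℕ}
    (hc : Shw K L s Q r x c e h p) (hh : 0 ≤ h) (hcc : c' ≤ c) : Shw K L s Q r x c' e h p := by
  obtain ⟨h1, h2, h3⟩ := hc
  exact ⟨h1, h2, fun q hq hqp hqd => h3 q hq hqp (hqd.trans_le (mul_le_mul_of_nonneg_right hcc hh))⟩

theorem Shw.congr_r {k K L s Q : ℕ} {r r' : Fin (k + 1) → ℕ} {x : Fin k → ℝ} {c e h : ℝ} {p : ℕ}
    (hr : ∀ j, r j ≡ r' j [MOD Q]) (hc : Shw K L s Q r x c e h p) : Shw K L s Q r' x c e h p := by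
  obtain ⟨h1, h2, h3⟩ := hc
  refine ⟨⟨h1.1, h1.2.trans (hr 0)⟩, fun j => ?_, fun q hq hqp hqd => ?_⟩
  · obtain ⟨Z, hZ, hZ2⟩ := h2 j
    refine ⟨Z, hZ, fun q hq => ?_⟩
    obtain ⟨a1, a2, a3, a4⟩ := hZ2 q hq
    exact ⟨a1, a2, ⟨a3.1, a3.2.trans (hr _)⟩, a4⟩
  · obtain ⟨j, hj1, hj2⟩ := h3 q hq hqp hqd
    exact ⟨j, ⟨hj1.1, hj1.2.trans (hr _)⟩, hj2⟩

theorem PosAlong.mono {A : Set ℕ} {P P' : ℕ → Prop} (h : PosAlong A P) (hPP : ∀ n, P n → P' n) : PosAlong A P' := by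
  obtain ⟨d, hd, hinf⟩ := h
  refine ⟨d, hd, hinf.mono fun M hM => ⟨hM.1, hM.2.trans (Nat.cast_le.2 (Set.ncard_le_ncard ?_ ?_))⟩⟩
  · exact fun n hn => ⟨hn.1, hPP n hn.2⟩
  · exact (Set.finite_lt_nat M).subset fun n hn => hn.1

/-- good moduli -/
def GoodMod (k K L s : ℕ) (A : Set ℕ) (Q : ℕ) : Prop :=
  ∃ c : ℝ, 0 < c ∧ ∀ r : Fin (k + 1) → ℕ, (∀ j, Nat.Coprime (r j) Q) → ∀ x : Fin k → ℝ, (∀ j, |x j| ≤ c) →
    ∀ e : ℝ, 0 < e → PosAlong A (fun n =>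
      Shw K L s Q r x c e (Real.log (Nat.nth Nat.Prime n)) (Nat.nth Nat.Prime n))

/-- `c` can be chosen before the classes -/
theorem goodMod_of {k K L s : ℕ} {A : Set ℕ} {Q : ℕ} (hQ : 0 < Q)
    (h : ∀ r : Fin (k + 1) → ℕ, (∀ j, Nat.Coprime (r j) Q) →
      ∃ c : ℝ, 0 < c ∧ ∀ x : Fin k → ℝ, (∀ j, |x j| ≤ c) → ∀ e : ℝ, 0 < e →
        PosAlong A (fun n => Shw K L s Q r x c e (Real.log (Nat.nth Nat.Prime n)) (Nat.nth Nat.Prime n))) :
    GoodMod k K L s A Q := by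
  classical
  have h1 : ∀ r : Fin (k + 1) → Fin Q, ∃ c : ℝ, 0 < c ∧ ((∀ j, Nat.Coprime (r j : ℕ) Q) →
      ∀ x : Fin k → ℝ, (∀ j, |x j| ≤ c) → ∀ e : ℝ, 0 < e →
        PosAlong A (fun n => Shw K L s Q (fun j => (r j : ℕ)) x c e (Real.log (Nat.nth Nat.Prime n))
          (Nat.nth Nat.Prime n))) := by
    intro r
    by_cases hr : ∀ j, Nat.Coprime (r j : ℕ) Q
    · obtain ⟨c, hc, h2⟩ := h (fun j => (r j : ℕ)) hr
      exact ⟨c, hc, fun _ => h2⟩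
    · exact ⟨1, one_pos, fun h3 => absurd h3 hr⟩
  choose c hc hmain using h1
  have hne' : Nonempty (Fin (k + 1) → Fin Q) := ⟨fun _ => ⟨0, hQ⟩⟩
  obtain ⟨r0, -, hr0⟩ := Finset.exists_min_image (Finset.univ : Finset (Fin (k + 1) → Fin Q)) c Finset.univ_nonempty
  refine ⟨c r0, hc r0, ?_⟩
  intro r hr x hx e he
  obtain ⟨r', hr'⟩ : ∃ r' : Fin (k + 1) → Fin Q, r' = fun j => ⟨r j % Q, Nat.mod_lt _ hQ⟩ := ⟨_, rfl⟩
  have hval : ∀ j, (r' j : ℕ) = r j % Q := fun j => by rw [hr']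
  have hmod : ∀ j, (r' j : ℕ) ≡ r j [MOD Q] := fun j => by
    rw [hval]
    exact Nat.mod_modEq _ _
  have hle : c r0 ≤ c r' := hr0 r' (Finset.mem_univ r')
  have h2 := hmain r' (fun j => by
    show Nat.gcd _ _ = 1
    rw [Nat.ModEq.gcd_eq (hmod j)]
    exact hr j) x (fun j => (hx j).trans hle) e he
  exact PosAlong.mono h2 fun n hn => (hn.congr_r hmod).mono_c (log_nth n) hle

/-- THEOREM W, uniform in the classes -/
theorem thmW_good (hA : ThmC) (k K L s : ℕ) (hk : 1 ≤ k) (hK : 1 ≤ K) (hL : 0 < L) (hs : Nat.Coprime s L)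
    (A : Set ℕ) (hinf : A.Infinite) (Qs : ℕ → ℕ) (hQ0 : ∀ ν < 100 * (k + K - 1), 0 < Qs ν)
    (hQL : ∀ ν < 100 * (k + K - 1), Nat.Coprime (Qs ν) L)
    (hQQ : ∀ ν < 100 * (k + K - 1), ∀ μ < 100 * (k + K - 1), ν ≠ μ → Nat.Coprime (Qs ν) (Qs μ)) :
    ∃ ν < 100 * (k + K - 1), GoodMod k K L s A (Qs ν) := by
  obtain ⟨ν, hν, h⟩ := thmW hA k K L s hk hK hL hs A hinf Qs hQ0 hQL hQQ
  exact ⟨ν, hν, goodMod_of (hQ0 ν hν) h⟩

/-- all powers of all primes outside a set of fewer than `100 (k + K - 1)` primes are good -/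
theorem good_primes (hA : ThmC) (k K L s : ℕ) (hk : 1 ≤ k) (hK : 1 ≤ K) (hL : 0 < L) (hs : Nat.Coprime s L)
    (A : Set ℕ) (hinf : A.Infinite) :
    ∃ F : Finset ℕ, F.card < 100 * (k + K - 1) ∧ ∀ l : ℕ, l.Prime → l ∉ F → ¬ l ∣ L → ∀ a : ℕ,
      GoodMod k K L s A (l ^ a) := by
  classical
  by_contra hcon
  push Not at hcon
  obtain ⟨T, hT⟩ : ∃ T, T = 100 * (k + K - 1) := ⟨_, rfl⟩
  have hT0 : 0 < T := by omega
  have hmain := thmW_good hA k K L s hk hK hL hs A hinf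
  rw [← hT] at hcon hmain
  obtain ⟨B, hB⟩ : ∃ B : Set ℕ, B = {l | l.Prime ∧ ¬ l ∣ L ∧ ∃ a : ℕ, ¬ GoodMod k K L s A (l ^ a)} := ⟨_, rfl⟩
  obtain ⟨F, hFB, hF⟩ : ∃ F : Finset ℕ, (F : Set ℕ) ⊆ B ∧ F.card = T := by
    by_cases hfin : B.Finite
    · by_cases hc : hfin.toFinset.card < T
      · exfalso
        obtain ⟨l, h1, h2, h3, a, h4⟩ := hcon hfin.toFinset hc
        apply h2
        rw [Set.Finite.mem_toFinset, hB]
        exact ⟨h1, h3, a, h4⟩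
      · obtain ⟨F, h1, h2⟩ := Finset.exists_subset_card_eq (not_lt.1 hc)
        refine ⟨F, fun y hy => ?_, h2⟩
        have h3 := h1 hy
        rwa [Set.Finite.mem_toFinset] at h3
    · exact Set.Infinite.exists_subset_card_eq hfin T
  have hFp : ∀ l ∈ F, l.Prime ∧ ¬ l ∣ L ∧ ∃ a : ℕ, ¬ GoodMod k K L s A (l ^ a) := by
    intro l hl
    have h1 := hFB hl
    rw [hB] at h1
    exact h1
  have hexp : ∀ l : ℕ, ∃ a : ℕ, l ∈ F → ¬ GoodMod k K L s A (l ^ a) := by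
    intro l
    by_cases hl : l ∈ F
    · obtain ⟨a, ha⟩ := (hFp l hl).2.2
      exact ⟨a, fun _ => ha⟩
    · exact ⟨0, fun h => absurd h hl⟩
  choose ex hex using hexp
  obtain ⟨g, hg⟩ : ∃ g : Fin T ≃ F, True := ⟨(F.equivFinOfCardEq hF).symm, trivial⟩
  obtain ⟨b, hb⟩ : ∃ b : ℕ → ℕ, b = fun ν => if h : ν < T then ((g ⟨ν, h⟩ : F) : ℕ) else 0 := ⟨_, rfl⟩
  have hbF : ∀ ν < T, b ν ∈ F := by
    intro ν hν
    rw [hb]
    simp only [hν, dif_pos]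
    exact (g ⟨ν, hν⟩).2
  have hbinj : ∀ ν < T, ∀ μ < T, b ν = b μ → ν = μ := by
    intro ν hν μ hμ h
    rw [hb] at h
    simp only [hν, hμ, dif_pos] at h
    have h1 := g.injective (Subtype.ext h)
    exact congrArg Fin.val h1
  obtain ⟨ν, hν, hgood⟩ := hmain (fun ν => b ν ^ ex (b ν))
    (fun ν hν => Nat.pow_pos (hFp _ (hbF ν hν)).1.pos)
    (fun ν hν => Nat.Coprime.pow_left _ (((hFp _ (hbF ν hν)).1.coprime_iff_not_dvd).2 (hFp _ (hbF ν hν)).2.1))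
    (fun ν hν μ hμ hne => Nat.Coprime.pow _ _ ((Nat.coprime_primes (hFp _ (hbF ν hν)).1 (hFp _ (hbF μ hμ)).1).2
      (fun h => hne (hbinj ν hν μ hμ h))))
  exact hex _ (hbF ν hν) hgood

/-- all moduli prime to one `Q₀` are good -/
theorem good_moduli (hA : ThmC) (k K L s : ℕ) (hk : 1 ≤ k) (hK : 1 ≤ K) (hL : 0 < L) (hs : Nat.Coprime s L)
    (A : Set ℕ) (hinf : A.Infinite) :
    ∃ Q₀ : ℕ, 0 < Q₀ ∧ ∀ Q : ℕ, 0 < Q → Nat.Coprime Q Q₀ → GoodMod k K L s A Q := by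
  classical
  by_contra hcon
  push Not at hcon
  have h1 : ∀ P : ℕ, ∃ Q : ℕ, 0 < P → 0 < Q ∧ Nat.Coprime Q P ∧ ¬ GoodMod k K L s A Q := by
    intro P
    by_cases hP : 0 < P
    · obtain ⟨Q, h2⟩ := hcon P hP
      exact ⟨Q, fun _ => h2⟩
    · exact ⟨0, fun h => absurd h hP⟩
  choose g hg using h1
  obtain ⟨P, hP⟩ : ∃ P : ℕ → ℕ, P = fun n => Nat.rec L (fun _ y => y * g y) n := ⟨_, rfl⟩
  have hP0 : P 0 = L := by subst hP; rfl
  have hPs : ∀ n, P (n + 1) = P n * g (P n) := fun n => by subst hP; rfl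
  have hpos : ∀ n, 0 < P n := by
    intro n
    induction n with
    | zero => rw [hP0]; exact hL
    | succ n ih => rw [hPs]; exact Nat.mul_pos ih (hg _ ih).1
  have hdvd : ∀ n m, n ≤ m → P n ∣ P m := by
    intro n m hnm
    induction m, hnm using Nat.le_induction with
    | base => exact dvd_rfl
    | succ m _ ih => exact ih.trans (by rw [hPs]; exact Dvd.intro _ rfl)
  have hLn : ∀ n, L ∣ P n := fun n => by
    have h2 := hdvd 0 n (Nat.zero_le n)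
    rwa [hP0] at h2
  have hcop : ∀ n m, n < m → Nat.Coprime (g (P m)) (g (P n)) := by
    intro n m hnm
    have h2 : g (P n) ∣ P m := by
      have h3 : g (P n) ∣ P (n + 1) := by
        rw [hPs]
        exact Dvd.intro_left _ rfl
      exact h3.trans (hdvd (n + 1) m hnm)
    exact Nat.Coprime.coprime_dvd_right h2 (hg _ (hpos m)).2.1
  obtain ⟨ν, hν, hgood⟩ := thmW_good hA k K L s hk hK hL hs A hinf (fun n => g (P n))
    (fun ν _ => (hg _ (hpos ν)).1)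
    (fun ν _ => Nat.Coprime.coprime_dvd_right (hLn ν) (hg _ (hpos ν)).2.1)
    (fun ν _ μ _ hne => by
      rcases lt_or_gt_of_ne hne with h2 | h2
      · exact (hcop ν μ h2).symm
      · exact hcop μ ν h2)
  exact (hg _ (hpos ν)).2.2 hgood

end Pool.Agent.H34.VW
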