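import Pool.Agent.H34.VW.Tw
import Pool.Agent.H34.RC.Df
import Pool.Agent.H62.VK.Fk

/-!
# [H34 VW FW] THEOREM W: limit laws of the primes near a prime, with residue classes

`Shw L s Q r x c e h p`: the prime `p` is `s` modulo `L` and `r 0` modulo `Q`; near each `p + x j h` there are at least `K`
primes `q ≠ p`, `s` modulo `L` and `r (j + 1)` modulo `Q`; every prime `q ≠ p` with `|q - p| < c h` is near some `p + x j h`
and is `s` modulo `L` and `r (j + 1)` modulo `Q`.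

`thmW`: of any `100 (k + K - 1)` pairwise coprime moduli prime to `L` one has, for a given infinite set `A`: for all classes
`r` there is `c > 0` such that for all `x` in `[-c, c] ^ k` and `e > 0` this holds at `p_n`, `h = log p_n`, with positive
frequency along `A`.
-/

set_option autoImplicit false

namespace Pool.Agent.H34.VW

open Filter Finset Pool.Agent.H82.LS Pool.Agent.H62.VK Pool.Agent.H34.RC

/-- the primes near `p` at the scale `h` look like `x`, with classes -/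
def Shw {k : ℕ} (K L s Q : ℕ) (r : Fin (k + 1) → ℕ) (x : Fin k → ℝ) (c e h : ℝ) (p : ℕ) : Prop :=
  (p ≡ s [MOD L] ∧ p ≡ r 0 [MOD Q]) ∧
  (∀ j : Fin k, ∃ Z : Finset ℕ, K ≤ Z.card ∧
    ∀ q ∈ Z, q.Prime ∧ q ≠ p ∧ (q ≡ s [MOD L] ∧ q ≡ r j.succ [MOD Q]) ∧ |(q : ℝ) - p - x j * h| < e * h) ∧
  ∀ q : ℕ, q.Prime → q ≠ p → |(q : ℝ) - p| < c * h →
    ∃ j : Fin k, (q ≡ s [MOD L] ∧ q ≡ r j.succ [MOD Q]) ∧ |(q : ℝ) - p - x j * h| < e * h

theorem Shw.mono {k K L s Q : ℕ} {r : Fin (k + 1) → ℕ} {x : Fin k → ℝ} {c e e' h : ℝ} {p : ℕ}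
    (hc : Shw K L s Q r x c e h p) (hh : 0 ≤ h) (he : e ≤ e') : Shw K L s Q r x c e' h p := by
  have hle : e * h ≤ e' * h := mul_le_mul_of_nonneg_right he hh
  obtain ⟨h1, h2, h3⟩ := hc
  refine ⟨h1, fun j => ?_, fun q hq hqp hqd => ?_⟩
  · obtain ⟨Z, hZ, hZ2⟩ := h2 j
    refine ⟨Z, hZ, fun q hq => ?_⟩
    obtain ⟨a1, a2, a3, a4⟩ := hZ2 q hq
    exact ⟨a1, a2, a3, a4.trans_le hle⟩
  · obtain ⟨j, hj1, hj2⟩ := h3 q hq hqp hqd
    exact ⟨j, hj1, hj2.trans_le hle⟩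

/-- from a good window to a pattern; `M` is the modulus, `a j` the class of the cell `j` -/
theorem good_shw {k m K n : ℕ} {ρ : ℕ → Fin (k + 1) → ℕ} {ww : ℝ} (M L s : ℕ) (Qs : ℕ → ℕ) (a : Fin m → ℕ)
    (al be w : Fin m → ℝ) (κ : Fin m → ℕ → ℕ) (S : Set (ℕ × Cf k)) (htree : IsTw K ρ ww al be w κ n 1 S)
    (hSn : ∀ b ∈ S, b.1 < n) (hLM : L ∣ M) (hQM : ∀ ν < n, Qs ν ∣ M) (has : ∀ j, a j ≡ s [MOD L])
    (haQ : ∀ j, ∀ ν < n, a j ≡ κ j ν [MOD Qs ν])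
    (h : ℝ) (hh : 0 < h) (N : ℕ) (hN : GoodC M a al be w h N) :
    ∃ i : ℕ, N ≤ Nat.nth Nat.Prime i ∧ (Nat.nth Nat.Prime i : ℝ) ≤ N + h ∧
      ∃ b ∈ S, Shw K L s (Qs b.1) (ρ b.1) b.2.1 b.2.2.1 b.2.2.2 h (Nat.nth Nat.Prime i) := by
  classical
  obtain ⟨hN1, hN2⟩ := hN
  obtain ⟨t1, t2, t3, t4⟩ := htree
  obtain ⟨P, hP⟩ : ∃ P : Finset ℝ, P = ((range (⌊h⌋₊ + 1)).filter
      (fun y => (N + y).Prime)).image (fun y : ℕ => (y : ℝ) / h) := ⟨_, rfl⟩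
  have mP : ∀ z, z ∈ P ↔ ∃ y : ℕ, (y : ℝ) ≤ h ∧ (N + y).Prime ∧ (y : ℝ) / h = z := by
    intro z
    rw [hP, mem_image]
    constructor
    · rintro ⟨y, hy, hz⟩
      rw [mem_filter, mem_range, Nat.lt_succ_iff] at hy
      exact ⟨y, (Nat.le_floor_iff hh.le).1 hy.1, hy.2, hz⟩
    · rintro ⟨y, hy, hy2, hz⟩
      refine ⟨y, ?_, hz⟩
      rw [mem_filter, mem_range, Nat.lt_succ_iff]
      exact ⟨(Nat.le_floor_iff hh.le).2 hy, hy2⟩
  -- the labels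
  have hlab : ∀ z : ℝ, ∃ g : ℕ → ℕ, z ∈ P → ∃ j, al j ≤ z ∧ z ≤ be j ∧ (∀ ν < n, g ν = κ j ν) ∧
      ∀ y : ℕ, (y : ℝ) ≤ h → (N + y).Prime → (y : ℝ) / h = z → N + y ≡ a j [MOD M] := by
    intro z
    by_cases hz : z ∈ P
    · obtain ⟨y, hy, hpr, hyz⟩ := (mP z).1 hz
      obtain ⟨d, hd1, hd2, hd3⟩ := hN1 y hy hpr
      refine ⟨κ d, fun _ => ⟨d, ?_, ?_, fun _ _ => rfl, ?_⟩⟩
      · rw [← hyz]
        exact (le_div_iff₀ hh).2 hd1
      · rw [← hyz]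
        exact (div_le_iff₀ hh).2 hd2
      · intro y' _ _ hy'z
        have h6 : y' = y := by
          rw [← hyz, div_left_inj' hh.ne'] at hy'z
          exact_mod_cast hy'z
        rw [h6]
        exact hd3
    · exact ⟨fun _ => 0, fun h => absurd h hz⟩
  choose C hC using hlab
  -- the classes of the primes
  have hcl : ∀ y : ℕ, (y : ℝ) ≤ h → (N + y).Prime → N + y ≡ s [MOD L] ∧
      ∀ ν < n, N + y ≡ C ((y : ℝ) / h) ν [MOD Qs ν] := by
    intro y hy hpr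
    obtain ⟨j, -, -, hj3, hj4⟩ := hC ((y : ℝ) / h) ((mP _).2 ⟨y, hy, hpr, rfl⟩)
    have h5 := hj4 y hy hpr rfl
    refine ⟨(h5.of_dvd hLM).trans (has j), fun ν hν => ?_⟩
    rw [hj3 ν hν]
    exact (h5.of_dvd (hQM ν hν)).trans (haQ j ν hν)
  have hcells : ∀ z ∈ P, ∃ j, al j ≤ z ∧ z ≤ be j ∧ ∀ ν < n, C z ν = κ j ν := by
    intro z hz
    obtain ⟨j, h5, h6, h7, -⟩ := hC z hz
    exact ⟨j, h5, h6, h7⟩
  have hone : ∀ d, OneIn (al d) (be d) h N → OneR P (al d) (be d) := by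
    intro d hd
    obtain ⟨y, ⟨hy1, hy2, hpr⟩, huniq⟩ := hd
    have hyh : (y : ℝ) ≤ h := by
      have := (t1 d).2.2
      nlinarith
    refine ⟨(y : ℝ) / h, (mP _).2 ⟨y, hyh, hpr, rfl⟩, ⟨(le_div_iff₀ hh).2 hy1,
      (div_le_iff₀ hh).2 hy2⟩, ?_⟩
    intro z hz hz1 hz2
    obtain ⟨y', hy', hpr', rfl⟩ := (mP z).1 hz
    rw [huniq y' ⟨(le_div_iff₀ hh).1 hz1, (div_le_iff₀ hh).1 hz2, hpr'⟩]
  have hsum : 1 < ∑ j, (if OneR P (al j) (be j) then w j else 0) := by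
    refine hN2.trans_le (Finset.sum_le_sum fun d _ => ?_)
    by_cases hd : OneIn (al d) (be d) h N
    · rw [if_pos hd, if_pos (hone d hd)]
    · rw [if_neg hd]
      split_ifs
      · exact (t3 d).1
      · exact le_rfl
  rcases t4 P C hcells with h5 | ⟨y, b, hb, hy1, hy2, hyP, hyl, hcl1, hcl2⟩
  · exfalso
    linarith
  have hbn := hSn b hb
  obtain ⟨v, hv1, hv2, rfl⟩ := (mP y).1 hyP
  obtain ⟨i, hi⟩ : ∃ i, Nat.nth Nat.Prime i = N + v := ⟨_, Nat.nth_count hv2⟩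
  -- differences of elements
  have hdiff : ∀ (z : ℕ) (t e : ℝ), |(z : ℝ) / h - (v : ℝ) / h - t| < e ↔
      |((N + z : ℕ) : ℝ) - ((N + v : ℕ) : ℝ) - t * h| < e * h := by
    intro z t e
    have e1 : ((N + z : ℕ) : ℝ) - ((N + v : ℕ) : ℝ) - t * h = ((z : ℝ) / h - (v : ℝ) / h - t) * h := by
      push_cast
      field_simp
      ring
    rw [e1, abs_mul, abs_of_pos hh, mul_lt_mul_iff_of_pos_right hh]
  refine ⟨i, by rw [hi]; omega, by rw [hi]; push_cast; linarith, b, hb, ?_⟩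
  rw [hi]
  refine ⟨⟨(hcl v hv1 hv2).1, ?_⟩, fun j => ?_, fun q hq hqv hqd => ?_⟩
  · have h6 := (hcl v hv1 hv2).2 b.1 hbn
    rwa [hyl] at h6
  · obtain ⟨Z, hZ, hZc, hZ2⟩ := hcl1 j
    obtain ⟨Y, hY⟩ : ∃ Y : Finset ℕ, Y = (range (⌊h⌋₊ + 1)).filter (fun y : ℕ => (y : ℝ) / h ∈ Z) := ⟨_, rfl⟩
    refine ⟨Y.image (fun y => N + y), ?_, ?_⟩
    · rw [Finset.card_image_of_injective _ (add_right_injective N)]
      refine hZc.trans ?_
      have h6 : Z ⊆ Y.image (fun y : ℕ => (y : ℝ) / h) := by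
        intro z hz
        obtain ⟨y', hy'1, hy'2, rfl⟩ := (mP z).1 (hZ hz)
        refine mem_image_of_mem _ ?_
        rw [hY, mem_filter, mem_range, Nat.lt_succ_iff]
        exact ⟨(Nat.le_floor_iff hh.le).2 hy'1, hz⟩
      exact (Finset.card_le_card h6).trans Finset.card_image_le
    · intro q hq
      obtain ⟨y', hy', rfl⟩ := mem_image.1 hq
      rw [hY, mem_filter] at hy'
      obtain ⟨y'', hy''1, hy''2, hy''3⟩ := (mP _).1 (hZ hy'.2)
      have h7 : y'' = y' := by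
        rw [div_left_inj' hh.ne'] at hy''3
        exact_mod_cast hy''3
      rw [h7] at hy''1 hy''2
      obtain ⟨hzy, hzj, hzl⟩ := hZ2 _ hy'.2
      have h8 := hcl y' hy''1 hy''2
      refine ⟨hy''2, fun h6 => hzy ?_, ⟨h8.1, ?_⟩, (hdiff _ _ _).1 hzj⟩
      · have : y' = v := by omega
        rw [this]
      · have h9 := h8.2 b.1 hbn
        rwa [hzl] at h9
  · have hqd' := abs_lt.1 hqd
    have h7 : b.2.2.1 * h ≤ v := by
      rwa [le_div_iff₀ hh] at hy1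
    have h8 : (v : ℝ) + b.2.2.1 * h ≤ h := by
      have h9 : ((v : ℝ) / h + b.2.2.1) * h ≤ 1 * h := mul_le_mul_of_nonneg_right hy2 hh.le
      rwa [add_mul, div_mul_cancel₀ _ hh.ne', one_mul] at h9
    have hNq : N ≤ q := by
      have h9 : (N : ℝ) ≤ q := by
        have h10 := hqd'.1
        push_cast at h10
        linarith
      exact_mod_cast h9
    obtain ⟨y', rfl⟩ : ∃ y', q = N + y' := ⟨q - N, by omega⟩
    have hy'h : (y' : ℝ) ≤ h := by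
      have h10 := hqd'.2
      push_cast at h10
      linarith
    have hne : (y' : ℝ) / h ≠ (v : ℝ) / h := by
      intro h11
      rw [div_left_inj' hh.ne'] at h11
      have : y' = v := by exact_mod_cast h11
      exact hqv (by rw [this])
    have hlt : |(y' : ℝ) / h - (v : ℝ) / h| < b.2.2.1 := by
      have e1 : ((N + y' : ℕ) : ℝ) - ((N + v : ℕ) : ℝ) = ((y' : ℝ) / h - (v : ℝ) / h) * h := by
        push_cast
        field_simp
        ring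
      rw [e1, abs_mul, abs_of_pos hh] at hqd
      exact lt_of_mul_lt_mul_right hqd hh.le
    obtain ⟨j, hj, hjl⟩ := hcl2 _ ((mP _).2 ⟨y', hy'h, hq, rfl⟩) hne hlt
    have h9 := hcl y' hy'h hq
    refine ⟨j, ⟨h9.1, ?_⟩, (hdiff _ _ _).1 hj⟩
    have h10 := h9.2 b.1 hbn
    rwa [hjl] at h10

/-- change of the scale -/
theorem shw_scale {k : ℕ} {K L s Q : ℕ} {r : Fin (k + 1) → ℕ} {x : Fin k → ℝ} {c e lam η X l : ℝ} {p : ℕ}
    (hlam : 0 < lam) (hc : 0 < c)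
    (he : 0 < e) (hx : ∀ j, |x j| ≤ c) (hη1 : η ≤ 1 / 4) (hη2 : c * η ≤ e / 4) (hX : 0 < X)
    (hl : |l - X| ≤ η * X) (h : Shw K L s Q r x (2 * c) e (lam * X) p) :
    Shw K L s Q r (fun j => lam * x j) (lam * c) (2 * lam * e) l p := by
  have hXl : X * (3 / 4) ≤ l := by
    rw [abs_le] at hl
    nlinarith [hl.1]
  have hlX : l ≤ 2 * X := by
    rw [abs_le] at hl
    nlinarith [hl.2]
  have main : ∀ (g : ℝ) (j : Fin k), |g - x j * (lam * X)| < e * (lam * X) →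
      |g - lam * x j * l| < 2 * lam * e * l := by
    intro g j hg
    have e4 : |x j * (lam * X) - lam * x j * l| ≤ lam * X * (e / 4) := by
      rw [show x j * (lam * X) - lam * x j * l = -(lam * (x j * (l - X))) by ring, abs_neg, abs_mul, abs_mul,
        abs_of_pos hlam]
      have e5 : |x j| * |l - X| ≤ c * (η * X) := mul_le_mul (hx j) hl (abs_nonneg _) hc.le
      have e6 : c * (η * X) ≤ e / 4 * X := by
        rw [← mul_assoc]
        exact mul_le_mul_of_nonneg_right hη2 hX.le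
      have e7 := mul_le_mul_of_nonneg_left (e5.trans e6) hlam.le
      linarith
    have e8 : lam * e * (X * (3 / 4)) ≤ lam * e * l :=
      mul_le_mul_of_nonneg_left hXl (by positivity)
    have e9 : 0 < lam * e * X := by positivity
    calc |g - lam * x j * l| = |(g - x j * (lam * X)) + (x j * (lam * X) - lam * x j * l)| := by
          congr 1; ring
      _ ≤ |g - x j * (lam * X)| + |x j * (lam * X) - lam * x j * l| := abs_add_le _ _
      _ < 2 * lam * e * l := by nlinarith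
  obtain ⟨h1, h2, h3⟩ := h
  refine ⟨h1, fun j => ?_, fun q hq hqp hqd => ?_⟩
  · obtain ⟨Z, hZ, hZ2⟩ := h2 j
    refine ⟨Z, hZ, fun q hq => ?_⟩
    obtain ⟨hq1, hq2, hq3, hq4⟩ := hZ2 q hq
    exact ⟨hq1, hq2, hq3, main _ j hq4⟩
  · have h4 : lam * c * l ≤ 2 * c * (lam * X) := by
      have h5 : lam * c * l ≤ lam * c * (2 * X) := mul_le_mul_of_nonneg_left hlX (by positivity)
      linarith
    obtain ⟨j, h5, hj⟩ := h3 q hq hqp (hqd.trans_le h4)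
    exact ⟨j, h5, main _ j hj⟩

/-- the tree of height `100 (k + K - 1)` -/
theorem hundredw {k K : ℕ} (hk : 1 ≤ k) (hK : 1 ≤ K) :
    ∃ (w : ℝ) (m : ℕ) (_ : Fin m ≃ Ndk k (100 * (k + K - 1))), 0 ≤ w ∧ w * (k + K - 1) = 1 ∧
      100 ≤ ∑ i, wtk k w (100 * (k + K - 1)) i := by
  obtain ⟨d, hd⟩ : ∃ d : ℕ, d = k + K - 1 := ⟨_, rfl⟩
  have hd1 : 1 ≤ d := by omega
  have hd0 : (0 : ℝ) < d := by exact_mod_cast hd1
  have hdr : (k : ℝ) + K - 1 = d := by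
    rw [hd, Nat.cast_sub (by omega)]
    push_cast
    ring
  rw [← hd]
  refine ⟨1 / d, _, (Fintype.equivFin (Ndk k (100 * d))).symm, by positivity, ?_, ?_⟩
  · rw [hdr]
    field_simp
  · rw [sum_wtk hk]
    push_cast
    rw [mul_assoc, mul_one_div_cancel hd0.ne', mul_one]

/-- a finite set of patterns for the windows gives positive lower density of the union -/
theorem lower_shw {k m K n : ℕ} {ρ : ℕ → Fin (k + 1) → ℕ} {ww : ℝ} (M L s : ℕ) (Qs : ℕ → ℕ) (a : Fin m → ℕ)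
    (al be w : Fin m → ℝ) (κ : Fin m → ℕ → ℕ) (S : Finset (ℕ × Cf k))
    (htree : IsTw K ρ ww al be w κ n 1 (S : Set (ℕ × Cf k)))
    (hLM : L ∣ M) (hQM : ∀ ν < n, Qs ν ∣ M) (has : ∀ j, a j ≡ s [MOD L])
    (haQ : ∀ j, ∀ ν < n, a j ≡ κ j ν [MOD Qs ν])
    (hS : ∀ p ∈ S, p.1 < n ∧ 0 < p.2.2.1 ∧ 0 < p.2.2.2 ∧ ∀ j, |p.2.1 j| ≤ p.2.2.1 / 2) (lam δ T : ℝ) (hlam : 0 < lam)
    (hδ : 0 < δ) (hT : 1 ≤ T)
    [∀ x : ℝ, DecidablePred (fun N : ℕ => GoodC M a al be w (lam * Real.log x) N)]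
    (h : ∀ᶠ x : ℝ in atTop, δ * x ≤ (((range (⌊T * x⌋₊ + 1)).filter
      (fun N : ℕ => GoodC M a al be w (lam * Real.log x) N)).card : ℝ)) :
    Pool.Agent.H19.LS.PosLower (fun i => ∃ b ∈ S, Shw K L s (Qs b.1) (ρ b.1) (fun j => lam * b.2.1 j)
      (lam * (b.2.2.1 / 2)) (2 * lam * b.2.2.2) (Real.log (Nat.nth Nat.Prime i)) (Nat.nth Nat.Prime i)) := by
  refine Pool.Agent.H19.LS.lower_of_windows _ T lam (δ / 4) hT hlam.le (by positivity) ?_
  have hsc : ∀ᶠ x : ℝ in atTop, ∀ b ∈ S, ∀ p : ℕ, δ / 2 * x ≤ p → (p : ℝ) ≤ T * x + lam * Real.log x →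
      Shw K L s (Qs b.1) (ρ b.1) b.2.1 b.2.2.1 b.2.2.2 (lam * Real.log x) p →
      Shw K L s (Qs b.1) (ρ b.1) (fun j => lam * b.2.1 j) (lam * (b.2.2.1 / 2)) (2 * lam * b.2.2.2) (Real.log p) p := by
    refine (eventually_all_finset S).2 fun b hb => ?_
    obtain ⟨-, hb1, hb2, hb3⟩ := hS b hb
    obtain ⟨η, hηd⟩ : ∃ η, η = min (1 / 4) (b.2.2.2 / (2 * b.2.2.1)) := ⟨_, rfl⟩
    have hη : 0 < η := hηd ▸ lt_min (by norm_num) (by positivity)
    have hη1 : η ≤ 1 / 4 := hηd ▸ min_le_left _ _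
    have hη2 : b.2.2.1 / 2 * η ≤ b.2.2.2 / 4 := by
      have h1 : η ≤ b.2.2.2 / (2 * b.2.2.1) := hηd ▸ min_le_right _ _
      rw [le_div_iff₀ (by positivity)] at h1
      linarith
    filter_upwards [log_near (δ / 2) T lam η (by positivity) hT hlam hη, eventually_gt_atTop (1 : ℝ)]
      with x hx hx1 p h1 h2 h3
    have hlog : 0 < Real.log x := Real.log_pos hx1
    exact shw_scale hlam (by positivity) hb2 hb3 hη1 hη2 hlog (hx p h1 h2)
      (by rw [show 2 * (b.2.2.1 / 2) = b.2.2.1 by ring]; exact h3)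
  filter_upwards [h, hsc, eventually_gt_atTop (1 : ℝ), eventually_ge_atTop (4 / δ)]
    with x hx hsc hx1 hx4
  have hx0 : 0 < x := by linarith
  obtain ⟨G, hG1, hG2⟩ := half_card _ δ T x hδ
    (by rw [div_le_iff₀ hδ] at hx4; linarith) hx
  have hℓ : 0 < lam * Real.log x := mul_pos hlam (Real.log_pos hx1)
  refine ⟨G, hG1, fun N hN => ?_⟩
  obtain ⟨h1, h2, h3⟩ := hG2 N hN
  have hN1 : (N : ℝ) ≤ T * x := (Nat.le_floor_iff (by positivity)).1 h1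
  obtain ⟨i, h4, h5, b, hb, h6⟩ := good_shw M L s Qs a al be w κ (S : Set (ℕ × Cf k)) htree
    (fun b hb => (hS b hb).1) hLM hQM has haQ _ hℓ N h3
  have h10 : (N : ℝ) ≤ Nat.nth Nat.Prime i := by exact_mod_cast h4
  exact ⟨hN1, i, ⟨b, hb, hsc b hb _ (h2.trans h10) (by linarith) h6⟩, h4, h5⟩

/-- simultaneous classes -/
theorem exists_crt (L s : ℕ) (hs : Nat.Coprime s L) (T : ℕ) (Qs : ℕ → ℕ)
    (hQL : ∀ ν < T, Nat.Coprime (Qs ν) L) (hQQ : ∀ ν < T, ∀ μ < T, ν ≠ μ → Nat.Coprime (Qs ν) (Qs μ))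
    (b : ℕ → ℕ) (hb : ∀ ν < T, Nat.Coprime (b ν) (Qs ν)) :
    ∃ a : ℕ, Nat.Coprime a (L * ∏ ν ∈ range T, Qs ν) ∧ a ≡ s [MOD L] ∧ ∀ ν < T, a ≡ b ν [MOD Qs ν] := by
  induction T with
  | zero => exact ⟨s, by simpa using hs, Nat.ModEq.refl _, fun ν hν => absurd hν (Nat.not_lt_zero ν)⟩
  | succ T ih =>
    obtain ⟨a, h1, h2, h3⟩ := ih (fun ν hν => hQL ν (by omega)) (fun ν hν μ hμ => hQQ ν (by omega) μ (by omega))
      (fun ν hν => hb ν (by omega))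
    have hcop : Nat.Coprime (L * ∏ ν ∈ range T, Qs ν) (Qs T) := by
      refine Nat.Coprime.mul_left (hQL T (by omega)).symm ?_
      refine Nat.Coprime.prod_left fun ν hν => ?_
      rw [mem_range] at hν
      exact hQQ ν (by omega) T (by omega) (by omega)
    obtain ⟨a', h4, h5⟩ := Nat.chineseRemainder hcop a (b T)
    have h6 : Nat.Coprime a' (L * ∏ ν ∈ range T, Qs ν) := by
      show Nat.gcd _ _ = 1
      rw [Nat.ModEq.gcd_eq h4]
      exact h1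
    have h7 : Nat.Coprime a' (Qs T) := by
      show Nat.gcd _ _ = 1
      rw [Nat.ModEq.gcd_eq h5]
      exact hb T (by omega)
    refine ⟨a', ?_, (h4.of_dvd (Dvd.intro _ rfl)).trans h2, fun ν hν => ?_⟩
    · rw [prod_range_succ, ← mul_assoc]
      exact Nat.Coprime.mul_right h6 h7
    · rcases Nat.lt_succ_iff_lt_or_eq.1 hν with h8 | h8
      · refine (h4.of_dvd ?_).trans (h3 ν h8)
        exact Dvd.dvd.mul_left (dvd_prod_of_mem Qs (mem_range.2 h8)) L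
      · rw [h8]
        exact h5

/-- THEOREM W -/
theorem thmW (hA : ThmC) (k K L s : ℕ) (hk : 1 ≤ k) (hK : 1 ≤ K) (hL : 0 < L) (hs : Nat.Coprime s L)
    (A : Set ℕ) (hinf : A.Infinite) (Qs : ℕ → ℕ) (hQ0 : ∀ ν < 100 * (k + K - 1), 0 < Qs ν)
    (hQL : ∀ ν < 100 * (k + K - 1), Nat.Coprime (Qs ν) L)
    (hQQ : ∀ ν < 100 * (k + K - 1), ∀ μ < 100 * (k + K - 1), ν ≠ μ → Nat.Coprime (Qs ν) (Qs μ)) :
    ∃ ν < 100 * (k + K - 1), ∀ r : Fin (k + 1) → ℕ, (∀ j, Nat.Coprime (r j) (Qs ν)) →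
      ∃ c : ℝ, 0 < c ∧ ∀ x : Fin k → ℝ, (∀ j, |x j| ≤ c) → ∀ e : ℝ, 0 < e →
        PosAlong A (fun n => Shw K L s (Qs ν) r x c e (Real.log (Nat.nth Nat.Prime n)) (Nat.nth Nat.Prime n)) := by
  classical
  by_contra hcon
  push Not at hcon
  obtain ⟨w, m, f, hw0, hw, hm⟩ := hundredw hk hK
  generalize 100 * (k + K - 1) = T at hQ0 hQL hQQ hcon f hm
  have hρ : ∀ ν, ∃ r : Fin (k + 1) → ℕ, ν < T → (∀ j, Nat.Coprime (r j) (Qs ν)) ∧
      ∀ c : ℝ, 0 < c → ∃ x : Fin k → ℝ, (∀ j, |x j| ≤ c) ∧ ∃ e : ℝ, 0 < e ∧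
        ¬ PosAlong A (fun n => Shw K L s (Qs ν) r x c e (Real.log (Nat.nth Nat.Prime n)) (Nat.nth Nat.Prime n)) := by
    intro ν
    by_cases hν : ν < T
    · obtain ⟨r, h1, h2⟩ := hcon ν hν
      exact ⟨r, fun _ => ⟨h1, h2⟩⟩
    · exact ⟨fun _ => 1, fun h => absurd h hν⟩
  choose ρ hρ using hρ
  have hM0 : 0 < L * ∏ ν ∈ range T, Qs ν :=
    Nat.mul_pos hL (prod_pos fun ν hν => hQ0 ν (mem_range.1 hν))
  have hm' : 100 ≤ ∑ i, wtk k w T (f i) := by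
    rw [Equiv.sum_comp f (wtk k w T)]
    exact hm
  obtain ⟨lam, hlam, h1, hA⟩ := hA m (fun i => wtk k w T (f i)) (fun i => wtk_nonneg hw0 _ _) hm' _ hM0
  obtain ⟨Bad, hBad⟩ : ∃ Bad : ℕ → (Fin k → ℝ) → ℝ → ℝ → Prop, Bad = fun ν x c e =>
      ¬ PosAlong A (fun n => Shw K L s (Qs ν) (ρ ν) (fun j => lam * x j) (lam * c) (2 * lam * e)
        (Real.log (Nat.nth Nat.Prime n)) (Nat.nth Nat.Prime n)) := ⟨_, rfl⟩
  have hanti : ∀ ν x c e e', e' ≤ e → Bad ν x c e → Bad ν x c e' := by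
    intro ν x c e e' hee hb
    rw [hBad] at hb ⊢
    intro hpos
    apply hb
    obtain ⟨d, hd, hinfd⟩ := hpos
    refine ⟨d, hd, hinfd.mono fun M hM => ⟨hM.1, hM.2.trans ?_⟩⟩
    have hfin : ({n : ℕ | n < M ∧ Shw K L s (Qs ν) (ρ ν) (fun j => lam * x j) (lam * c) (2 * lam * e)
        (Real.log (Nat.nth Nat.Prime n)) (Nat.nth Nat.Prime n)}).Finite :=
      (Set.finite_lt_nat M).subset fun n hn => hn.1
    have hsub : {n : ℕ | n < M ∧ Shw K L s (Qs ν) (ρ ν) (fun j => lam * x j) (lam * c) (2 * lam * e')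
        (Real.log (Nat.nth Nat.Prime n)) (Nat.nth Nat.Prime n)} ⊆
        {n : ℕ | n < M ∧ Shw K L s (Qs ν) (ρ ν) (fun j => lam * x j) (lam * c) (2 * lam * e)
        (Real.log (Nat.nth Nat.Prime n)) (Nat.nth Nat.Prime n)} := fun n hn =>
      ⟨hn.1, hn.2.mono (log_nth n) (mul_le_mul_of_nonneg_left hee (by positivity))⟩
    exact_mod_cast Set.ncard_le_ncard hsub hfin
  have hbad : ∀ ν < T, ∀ c : ℝ, 0 < c → ∃ (x : Fin k → ℝ) (e : ℝ), (∀ j, |x j| ≤ c) ∧ 0 < e ∧ Bad ν x c e := by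
    intro ν hν c hc
    obtain ⟨x, hx, e, he, h⟩ := (hρ ν hν).2 (lam * c) (mul_pos hlam hc)
    refine ⟨fun j => x j / lam, e / (2 * lam), fun j => ?_, by positivity, ?_⟩
    · rw [abs_div, abs_of_pos hlam, div_le_iff₀ hlam]
      linarith [hx j]
    · rw [hBad]
      have h2 : (fun j => lam * (x j / lam)) = x := by
        funext j
        field_simp
      have h3 : 2 * lam * (e / (2 * lam)) = e := by field_simp
      show ¬ PosAlong A (fun n => Shw K L s (Qs ν) (ρ ν) (fun j => lam * (x j / lam)) (lam * c)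
        (2 * lam * (e / (2 * lam))) (Real.log (Nat.nth Nat.Prime n)) (Nat.nth Nat.Prime n))
      rw [h2, h3]
      exact h
  obtain ⟨lo, hi, S, hS, htree⟩ := treew_bad (K := K) hk ρ hw0 hw Bad T hanti hbad T le_rfl 1 one_pos
  have htree' := htree.reindex f
  -- the classes of the cells
  have hcls : ∀ j : Fin m, ∃ a : ℕ, Nat.Coprime a (L * ∏ ν ∈ range T, Qs ν) ∧ a ≡ s [MOD L] ∧
      ∀ ν < T, a ≡ kap ρ T (f j) ν [MOD Qs ν] := by
    intro j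
    refine exists_crt L s hs T Qs hQL hQQ (kap ρ T (f j)) fun ν hν => ?_
    obtain ⟨i, hi⟩ := kap_mem ρ T (f j) ν
    rw [hi]
    exact (hρ ν hν).1 i
  choose a ha1 ha2 ha3 using hcls
  obtain ⟨δ, T', hδ, hT, hx⟩ := hA a ha1 (fun i => lo (f i)) (fun i => hi (f i)) htree'.1 htree'.2.1
    lam hlam le_rfl
  have hlow := lower_shw (L * ∏ ν ∈ range T, Qs ν) L s Qs a _ _ _ _ S htree' (Dvd.intro _ rfl)
    (fun ν hν => Dvd.dvd.mul_left (dvd_prod_of_mem Qs (mem_range.2 hν)) L) ha2 ha3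
    (fun p hp => ⟨(hS p hp).1, (hS p hp).2.1, (hS p hp).2.2.2.1, (hS p hp).2.2.2.2.1⟩) lam δ T' hlam hδ hT hx
  obtain ⟨p, hp, hU⟩ := union_along A hinf S _ hlow
  have h4 := (hS p hp).2.2.2.2.2
  rw [hBad] at h4
  exact h4 hU

end Pool.Agent.H34.VW
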