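import Pool.Agent.H34.VW.Cor

/-!
# [H34 VW THREE] Three consecutive primes in prescribed classes with prescribed gaps
-/

set_option autoImplicit false

namespace Pool.Agent.H34.VW

open Filter Finset Pool.Agent.H82.LS Pool.Agent.H62.VK Pool.Agent.H34.RC

/-- the index moves by one -/
theorem PosAlong.shift {A : Set ℕ} {P P' : ℕ → Prop} (h : PosAlong A P)
    (hP : ∀ᶠ i : ℕ in atTop, P i → 1 ≤ i ∧ P' (i - 1)) : PosAlong A P' := by
  obtain ⟨d, hd, hinf⟩ := h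
  obtain ⟨i0, hi0⟩ := eventually_atTop.1 hP
  refine ⟨d / 2, by positivity, ?_⟩
  have h1 : ({M : ℕ | M ∈ A ∧ d * M ≤ ({n : ℕ | n < M ∧ P n}.ncard : ℝ)} \
      {M : ℕ | M < ⌈2 * i0 / d⌉₊ + 1}).Infinite := hinf.sdiff (Set.finite_lt_nat _)
  refine h1.mono ?_
  rintro M ⟨⟨hMA, hM⟩, hM2⟩
  refine ⟨hMA, ?_⟩
  have h2 : 2 * (i0 : ℝ) / d ≤ M := by
    have h3 : ⌈2 * (i0 : ℝ) / d⌉₊ + 1 ≤ M := not_lt.1 hM2
    have h4 : ((⌈2 * (i0 : ℝ) / d⌉₊ + 1 : ℕ) : ℝ) ≤ M := by exact_mod_cast h3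
    have h5 := Nat.le_ceil (2 * (i0 : ℝ) / d)
    push_cast at h4
    linarith
  rw [div_le_iff₀ hd] at h2
  have hfin : ({n : ℕ | n < M ∧ P' n}).Finite := (Set.finite_lt_nat M).subset fun n hn => hn.1
  have h3 : {n : ℕ | n < M ∧ P n} ⊆ {n : ℕ | n < i0} ∪ (fun n => n + 1) '' {n : ℕ | n < M ∧ P' n} := by
    rintro i ⟨hi, hPi⟩
    by_cases hc : i < i0
    · exact Or.inl hc
    · right
      obtain ⟨h4, h5⟩ := hi0 i (not_lt.1 hc) hPi
      exact ⟨i - 1, ⟨by omega, h5⟩, by show i - 1 + 1 = i; omega⟩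
  have h4 : ({n : ℕ | n < M ∧ P n}).ncard ≤ i0 + ({n : ℕ | n < M ∧ P' n}).ncard := by
    refine (Set.ncard_le_ncard h3 ((Set.finite_lt_nat i0).union (hfin.image _))).trans ?_
    refine (Set.ncard_union_le _ _).trans (Nat.add_le_add ?_ (Set.ncard_image_le hfin))
    rw [show {n : ℕ | n < i0} = ((range i0 : Finset ℕ) : Set ℕ) by ext n; simp, Set.ncard_coe_finset, card_range]
  have h5 : (({n : ℕ | n < M ∧ P n}).ncard : ℝ) ≤ i0 + (({n : ℕ | n < M ∧ P' n}).ncard : ℝ) := by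
    exact_mod_cast h4
  nlinarith

/-- the neighbours of the centre of a shape with two clusters -/
theorem three_shw {L s Q : ℕ} {r : Fin 3 → ℕ} {u v c e h : ℝ} {i : ℕ} (he : 0 < e) (hu : e < u) (hv : e < v)
    (huc : u + e < c) (hvc : v + e < c) (hh : 0 < h)
    (hS : Shw 1 L s Q r ![-u, v] c e h (Nat.nth Nat.Prime i)) :
    1 ≤ i ∧ (Nat.nth Nat.Prime (i - 1) ≡ s [MOD L] ∧ Nat.nth Nat.Prime (i - 1) ≡ r 1 [MOD Q]) ∧
      (Nat.nth Nat.Prime i ≡ s [MOD L] ∧ Nat.nth Nat.Prime i ≡ r 0 [MOD Q]) ∧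
      (Nat.nth Nat.Prime (i + 1) ≡ s [MOD L] ∧ Nat.nth Nat.Prime (i + 1) ≡ r 2 [MOD Q]) ∧
      |(gap (i - 1) : ℝ) - u * h| < e * h ∧ |(gap i : ℝ) - v * h| < e * h := by
  have hmono := Nat.nth_strictMono Nat.infinite_setOfPred_prime
  obtain ⟨h1, h2, h3⟩ := hS
  obtain ⟨p, hp⟩ : ∃ p, p = Nat.nth Nat.Prime i := ⟨_, rfl⟩
  rw [← hp] at h1 h2 h3
  have hx0 : (![-u, v] : Fin 2 → ℝ) 0 = -u := rfl
  have hx1 : (![-u, v] : Fin 2 → ℝ) 1 = v := rfl
  have hs0 : (Fin.succ (0 : Fin 2) : Fin 3) = 1 := rfl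
  have hs1 : (Fin.succ (1 : Fin 2) : Fin 3) = 2 := rfl
  -- elements of the two clusters
  obtain ⟨Z0, hZ0, hZ0'⟩ := h2 0
  obtain ⟨q0, hq0⟩ := Finset.card_pos.1 (lt_of_lt_of_le one_pos hZ0)
  obtain ⟨a1, a2, -, a4⟩ := hZ0' q0 hq0
  obtain ⟨Z1, hZ1, hZ1'⟩ := h2 1
  obtain ⟨q1, hq1⟩ := Finset.card_pos.1 (lt_of_lt_of_le one_pos hZ1)
  obtain ⟨b1, b2, -, b4⟩ := hZ1' q1 hq1
  rw [hx0, abs_lt] at a4
  rw [hx1, abs_lt] at b4
  have huh : e * h < u * h := mul_lt_mul_of_pos_right hu hh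
  have hvh : e * h < v * h := mul_lt_mul_of_pos_right hv hh
  have huch : (u + e) * h < c * h := mul_lt_mul_of_pos_right huc hh
  have hvch : (v + e) * h < c * h := mul_lt_mul_of_pos_right hvc hh
  have hq0p : q0 < p := by
    have : (q0 : ℝ) < p := by linarith [a4.2]
    exact_mod_cast this
  have hpq1 : p < q1 := by
    have : (p : ℝ) < q1 := by linarith [b4.1]
    exact_mod_cast this
  -- the previous prime
  have hcnt : Nat.count Nat.Prime q0 < i := by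
    rw [← hmono.lt_iff_lt, Nat.nth_count a1, ← hp]
    exact hq0p
  have hi : 1 ≤ i := by omega
  obtain ⟨pm, hpm⟩ : ∃ pm, pm = Nat.nth Nat.Prime (i - 1) := ⟨_, rfl⟩
  have hpmp : pm.Prime := hpm ▸ Nat.prime_nth_prime _
  have hpm1 : pm < p := by
    rw [hpm, hp]
    exact hmono (by omega)
  have hpm2 : q0 ≤ pm := by
    have h4 := hmono.monotone (show Nat.count Nat.Prime q0 ≤ i - 1 by omega)
    rw [Nat.nth_count a1, ← hpm] at h4
    exact h4
  -- the next prime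
  obtain ⟨pn, hpn⟩ : ∃ pn, pn = Nat.nth Nat.Prime (i + 1) := ⟨_, rfl⟩
  have hpnp : pn.Prime := hpn ▸ Nat.prime_nth_prime _
  have hpn1 : p < pn := by
    rw [hpn, hp]
    exact hmono (Nat.lt_succ_self i)
  have hcnt1 : i < Nat.count Nat.Prime q1 := by
    rw [← hmono.lt_iff_lt, Nat.nth_count b1, ← hp]
    exact hpq1
  have hpn2 : pn ≤ q1 := by
    have h4 := hmono.monotone (show i + 1 ≤ Nat.count Nat.Prime q1 by omega)
    rw [Nat.nth_count b1, ← hpn] at h4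
    exact h4
  have c1 : (pm : ℝ) < p := by exact_mod_cast hpm1
  have c2 : (q0 : ℝ) ≤ pm := by exact_mod_cast hpm2
  have c3 : (p : ℝ) < pn := by exact_mod_cast hpn1
  have c4 : (pn : ℝ) ≤ q1 := by exact_mod_cast hpn2
  obtain ⟨j, hj1, hj2⟩ := h3 pm hpmp hpm1.ne (by
    rw [abs_lt]
    constructor
    · linarith [a4.1]
    · linarith [mul_pos (show (0 : ℝ) < c by linarith) hh])
  obtain ⟨j', hj1', hj2'⟩ := h3 pn hpnp hpn1.ne' (by
    rw [abs_lt]
    constructor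
    · linarith [mul_pos (show (0 : ℝ) < c by linarith) hh]
    · linarith [b4.2])
  have hj : j = 0 := by
    fin_cases j
    · rfl
    · exfalso
      change |(pm : ℝ) - p - (![-u, v] : Fin 2 → ℝ) 1 * h| < e * h at hj2
      rw [hx1, abs_lt] at hj2
      linarith [hj2.1]
  have hj' : j' = 1 := by
    fin_cases j'
    · exfalso
      change |(pn : ℝ) - p - (![-u, v] : Fin 2 → ℝ) 0 * h| < e * h at hj2'
      rw [hx0, abs_lt] at hj2'
      linarith [hj2'.2]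
    · rfl
  rw [hj, hs0] at hj1
  rw [hj, hx0] at hj2
  rw [hj', hs1] at hj1'
  rw [hj', hx1] at hj2'
  refine ⟨hi, ?_, ?_, ?_, ?_, ?_⟩
  · rw [← hpm]
    exact hj1
  · rw [← hp]
    exact h1
  · rw [← hpn]
    exact hj1'
  · have e1 : ((gap (i - 1) : ℕ) : ℝ) = (p : ℝ) - pm := by
      unfold gap
      rw [show i - 1 + 1 = i by omega, ← hp, ← hpm, Nat.cast_sub hpm1.le]
    rw [e1, ← abs_neg, show -((p : ℝ) - pm - u * h) = (pm : ℝ) - p - -u * h by ring]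
    exact hj2
  · have e1 : ((gap i : ℕ) : ℝ) = (pn : ℝ) - p := by
      unfold gap
      rw [← hp, ← hpn, Nat.cast_sub hpn1.le]
    rw [e1]
    exact hj2'

/-- three consecutive primes in the classes `r 0`, `r 1`, `r 2` modulo `Q`, with prescribed gaps -/
theorem three_of_good {L s : ℕ} {A : Set ℕ} {Q : ℕ} (hg : GoodMod 2 1 L s A Q) :
    ∃ c : ℝ, 0 < c ∧ ∀ r : Fin 3 → ℕ, (∀ j, Nat.Coprime (r j) Q) → ∀ u v : ℝ, 0 ≤ u → u ≤ c → 0 ≤ v → v ≤ c →
      ∀ e : ℝ, 0 < e → PosAlong A (fun n =>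
        |(gap n : ℝ) - u * Real.log (Nat.nth Nat.Prime n)| < e * Real.log (Nat.nth Nat.Prime n) ∧
        |(gap (n + 1) : ℝ) - v * Real.log (Nat.nth Nat.Prime n)| < e * Real.log (Nat.nth Nat.Prime n) ∧
        ∀ j : Fin 3, Nat.nth Nat.Prime (n + j) ≡ s [MOD L] ∧ Nat.nth Nat.Prime (n + j) ≡ r j [MOD Q]) := by
  obtain ⟨c, hc, h⟩ := hg
  obtain ⟨c', hc'd⟩ : ∃ c', c' = min (c / 2) 1 := ⟨_, rfl⟩
  have hc'0 : 0 < c' := hc'd ▸ lt_min (by positivity) one_pos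
  have hc'1 : c' ≤ c / 2 := hc'd ▸ min_le_left _ _
  have hc'2 : c' ≤ 1 := hc'd ▸ min_le_right _ _
  refine ⟨c', hc'0, ?_⟩
  intro r hr u v hu0 huc hv0 hvc e he
  obtain ⟨δ, hδd⟩ : ∃ δ, δ = min (e / 8) (c / 4) := ⟨_, rfl⟩
  have hδ : 0 < δ := hδd ▸ lt_min (by positivity) (by positivity)
  have hδ1 : δ ≤ e / 8 := hδd ▸ min_le_left _ _
  have hδ2 : δ ≤ c / 4 := hδd ▸ min_le_right _ _
  obtain ⟨u', hu'd⟩ : ∃ u', u' = max u δ := ⟨_, rfl⟩
  obtain ⟨v', hv'd⟩ : ∃ v', v' = max v δ := ⟨_, rfl⟩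
  have hu1 : u ≤ u' := hu'd ▸ le_max_left _ _
  have hu2 : δ ≤ u' := hu'd ▸ le_max_right _ _
  have hu3 : u' ≤ u + δ := hu'd ▸ max_le (by linarith) (by linarith)
  have hu4 : u' ≤ c / 2 := hu'd ▸ max_le (by linarith) (by linarith)
  have hv1 : v ≤ v' := hv'd ▸ le_max_left _ _
  have hv2 : δ ≤ v' := hv'd ▸ le_max_right _ _
  have hv3 : v' ≤ v + δ := hv'd ▸ max_le (by linarith) (by linarith)
  have hv4 : v' ≤ c / 2 := hv'd ▸ max_le (by linarith) (by linarith)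
  have h1 := h ![r 1, r 0, r 2] (by
    intro j
    fin_cases j
    · exact hr 1
    · exact hr 0
    · exact hr 2) ![-u', v'] (by
    intro j
    fin_cases j
    · show |(-u' : ℝ)| ≤ c
      rw [abs_neg, abs_of_pos (by linarith)]
      linarith
    · show |(v' : ℝ)| ≤ c
      rw [abs_of_pos (by linarith)]
      linarith) (δ / 2) (by positivity)
  refine PosAlong.shift h1 ?_
  obtain ⟨η, hηd⟩ : ∃ η, η = min (1 : ℝ) (e / 4) := ⟨_, rfl⟩
  have hη : 0 < η := hηd ▸ lt_min one_pos (by positivity)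
  have hη1 : η ≤ 1 := hηd ▸ min_le_left _ _
  have hη2 : η ≤ e / 4 := hηd ▸ min_le_right _ _
  have hmono := Nat.nth_strictMono Nat.infinite_setOfPred_prime
  have hbig : ∀ᶠ i : ℕ in atTop, Real.log 2 / η ≤ Real.log (Nat.nth Nat.Prime (i - 1)) := by
    have h2 : Tendsto (fun i : ℕ => Real.log (Nat.nth Nat.Prime (i - 1))) atTop atTop := by
      refine Real.tendsto_log_atTop.comp (tendsto_natCast_atTop_atTop.comp ?_)
      exact (hmono.tendsto_atTop).comp (tendsto_sub_atTop_nat 1)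
    exact h2.eventually_ge_atTop _
  filter_upwards [hbig] with i hi hS
  have hlog : 0 < Real.log (Nat.nth Nat.Prime i) :=
    Real.log_pos (by exact_mod_cast (Nat.prime_nth_prime i).one_lt)
  have hlog' : 0 < Real.log (Nat.nth Nat.Prime (i - 1)) :=
    Real.log_pos (by exact_mod_cast (Nat.prime_nth_prime (i - 1)).one_lt)
  obtain ⟨k1, k2, k3, k4, k5, k6⟩ := three_shw (by positivity) (by linarith) (by linarith) (by linarith) (by linarith)
    hlog hS
  refine ⟨k1, ?_⟩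
  -- the two logarithms
  have hle : Real.log (Nat.nth Nat.Prime (i - 1)) ≤ Real.log (Nat.nth Nat.Prime i) := by
    refine Real.log_le_log (by exact_mod_cast (Nat.prime_nth_prime (i - 1)).pos) ?_
    exact_mod_cast hmono.monotone (Nat.sub_le i 1)
  have hge : Real.log (Nat.nth Nat.Prime i) ≤ (1 + η) * Real.log (Nat.nth Nat.Prime (i - 1)) := by
    obtain ⟨q, hq1, hq2, hq3⟩ := Nat.exists_prime_lt_and_le_two_mul (Nat.nth Nat.Prime (i - 1))
      (Nat.prime_nth_prime (i - 1)).ne_zero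
    have h4 : Nat.nth Nat.Prime i ≤ q := by
      have h5 : i - 1 < Nat.count Nat.Prime q := by
        rw [← hmono.lt_iff_lt, Nat.nth_count hq1]
        exact hq2
      have h6 := hmono.monotone (show i ≤ Nat.count Nat.Prime q by omega)
      rwa [Nat.nth_count hq1] at h6
    have h5 : ((Nat.nth Nat.Prime i : ℕ) : ℝ) ≤ 2 * (Nat.nth Nat.Prime (i - 1) : ℕ) := by
      exact_mod_cast h4.trans hq3
    have h6 : Real.log (Nat.nth Nat.Prime i) ≤ Real.log 2 + Real.log (Nat.nth Nat.Prime (i - 1)) := by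
      rw [← Real.log_mul (by norm_num) (by exact_mod_cast (Nat.prime_nth_prime (i - 1)).ne_zero)]
      exact Real.log_le_log (by exact_mod_cast (Nat.prime_nth_prime i).pos) h5
    rw [div_le_iff₀ hη] at hi
    linarith
  generalize Real.log (Nat.nth Nat.Prime i) = l at hlog hle hge k5 k6
  generalize Real.log (Nat.nth Nat.Prime (i - 1)) = l' at hlog' hle hge hi
  have main : ∀ g t t' : ℝ, 0 ≤ t → t ≤ 1 → t ≤ t' → t' ≤ t + δ → |g - t' * l| < δ / 2 * l → |g - t * l'| < e * l' := by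
    intro g t t' ht0 ht1 htt htt' hg
    have q1 : |t' * l - t * l'| ≤ δ * l + t * (η * l') := by
      rw [abs_of_nonneg (by nlinarith)]
      nlinarith
    have q2 : l ≤ 2 * l' := by nlinarith
    calc |g - t * l'| = |(g - t' * l) + (t' * l - t * l')| := by congr 1; ring
      _ ≤ |g - t' * l| + |t' * l - t * l'| := abs_add_le _ _
      _ < e * l' := by
        have q3 : δ / 2 * l ≤ δ * l' := by nlinarith
        have q4 : δ * l ≤ 2 * δ * l' := by nlinarith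
        have q5 : t * (η * l') ≤ e / 4 * l' := by
          have : t * η ≤ e / 4 := by nlinarith
          nlinarith
        have q6 : δ * l' ≤ e / 8 * l' := mul_le_mul_of_nonneg_right hδ1 hlog'.le
        nlinarith
  have ei : i - 1 + 1 = i := by omega
  refine ⟨?_, ?_, ?_⟩
  · exact main _ u u' hu0 (by linarith) hu1 hu3 k5
  · rw [ei]
    exact main _ v v' hv0 (by linarith) hv1 hv3 k6
  · intro j
    fin_cases j
    · exact k2
    · show Nat.nth Nat.Prime (i - 1 + 1) ≡ s [MOD L] ∧ Nat.nth Nat.Prime (i - 1 + 1) ≡ r 1 [MOD Q]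
      rw [ei]
      exact k3
    · show Nat.nth Nat.Prime (i - 1 + 2) ≡ s [MOD L] ∧ Nat.nth Nat.Prime (i - 1 + 2) ≡ r 2 [MOD Q]
      rw [show i - 1 + 2 = i + 1 by omega]
      exact k4

end Pool.Agent.H34.VW
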