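import Pool.Agent.H34.VW.Three
import Pool.Agent.H62.VW.Main

/-!
# [H34 VW THREE W] From helper62's good moduli (with colours) to three consecutive primes
-/

set_option autoImplicit false

namespace Pool.Agent.H34.VW

open Filter Finset Pool.Agent.H82.LS Pool.Agent.H62.VK Pool.Agent.H34.RC Pool.Agent.H62.VW

/-- a coloured shape is a shape -/
theorem shw_of_shapeW {k r K L s Q : ℕ} {w : Fin (k + 1) → ℕ} {χ : ℕ → Fin r} {q : Fin r} {x : Fin k → ℝ}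
    {c e h : ℝ} {p : ℕ} (hS : ShapeW K L s Q w χ q x c h e p) : Shw K L s Q w x c e h p := by
  obtain ⟨⟨h1, h2, -⟩, h3, h4⟩ := hS
  refine ⟨⟨h1, h2⟩, fun j => ?_, fun p' hp hpp hd => ?_⟩
  · obtain ⟨Z, hZ, hZ2⟩ := h4 j
    refine ⟨Z, hZ, fun p' hp => ?_⟩
    obtain ⟨a1, a2, a3, a4, -, a6⟩ := hZ2 p' hp
    exact ⟨a1, a2, ⟨a3, a4⟩, a6⟩
  · obtain ⟨a1, j, a2, a3⟩ := h3 p' hp hpp hd
    exact ⟨j, ⟨a1, a2⟩, a3⟩

theorem goodMod_of_goodW {k r K L s Q : ℕ} {χ : ℕ → Fin r} {A : Set ℕ} (h : GoodW k K L s χ A Q) :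
    GoodMod k K L s A Q := by
  obtain ⟨c, hc, h⟩ := h
  refine ⟨c, hc, fun w hw x hx e he => ?_⟩
  obtain ⟨q, hq⟩ := h w hw x hx
  exact posAlong_mono (fun n hn => shw_of_shapeW hn) (hq e he)

/-- three consecutive primes in any reduced classes, with both gaps prescribed, for a good modulus -/
theorem three_of_goodW {r L s Q : ℕ} {χ : ℕ → Fin r} {A : Set ℕ} (h : GoodW 2 1 L s χ A Q) :
    ∃ c : ℝ, 0 < c ∧ ∀ w : Fin 3 → ℕ, (∀ j, Nat.Coprime (w j) Q) → ∀ u v : ℝ, 0 ≤ u → u ≤ c → 0 ≤ v → v ≤ c →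
      ∀ e : ℝ, 0 < e → PosAlong A (fun n =>
        |(gap n : ℝ) - u * Real.log (Nat.nth Nat.Prime n)| < e * Real.log (Nat.nth Nat.Prime n) ∧
        |(gap (n + 1) : ℝ) - v * Real.log (Nat.nth Nat.Prime n)| < e * Real.log (Nat.nth Nat.Prime n) ∧
        ∀ j : Fin 3, Nat.nth Nat.Prime (n + (j : ℕ)) ≡ s [MOD L] ∧
          Nat.nth Nat.Prime (n + (j : ℕ)) ≡ w j [MOD Q]) :=
  three_of_good (goodMod_of_goodW h)

end Pool.Agent.H34.VW
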